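import Mathlib
import Pool.Graph.R_pool_sql_team_39128cda.Results.MP_3f72ec_co.Counter

set_option autoImplicit false

namespace Pool.Agent.Results.MP_3f72ec_co.ExactSizes

open Set
open Pool.Agent.Results.MP_3f72ec_co.Counter (Stabs hit stab treeStab stabs_iff bdd L f lines fin)

/-- value of the affine function of a line -/
def ev (a b c : ℝ) (u : ℝ × ℝ) : ℝ := a * u.1 + b * u.2 - c

theorem mem_hit {n : ℕ} {P : Fin n → ℝ × ℝ} (hP : Function.Injective P) (G : SimpleGraph (Fin n))
    (a b c : ℝ) (e : Sym2 (Fin n)) :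
    e ∈ hit P G a b c ↔ ∃ i j, e = s(i, j) ∧ G.Adj i j ∧ ev a b c (P i) * ev a b c (P j) < 0 := by
  constructor
  · rintro ⟨i, j, rfl, h, g⟩
    exact ⟨i, j, rfl, h, (stabs_iff _ _ _ _ _ (hP.ne h.ne)).1 g⟩
  · rintro ⟨i, j, rfl, h, g⟩
    exact ⟨i, j, rfl, h, (stabs_iff _ _ _ _ _ (hP.ne h.ne)).2 g⟩

theorem pair_hit {n : ℕ} {P : Fin n → ℝ × ℝ} (hP : Function.Injective P) (G : SimpleGraph (Fin n))
    (a b c : ℝ) (i j : Fin n) :
    s(i, j) ∈ hit P G a b c ↔ G.Adj i j ∧ ev a b c (P i) * ev a b c (P j) < 0 := by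
  rw [mem_hit hP]
  constructor
  · rintro ⟨i', j', e, h, g⟩
    rw [Sym2.eq_iff] at e
    rcases e with ⟨rfl, rfl⟩ | ⟨rfl, rfl⟩
    · exact ⟨h, g⟩
    · exact ⟨h.symm, by rw [mul_comm]; exact g⟩
  · rintro ⟨h, g⟩
    exact ⟨i, j, rfl, h, g⟩

/-- Suppression of an extreme point of degree at most two. -/
theorem step {M : ℕ} (P : Fin (M + 1) → ℝ × ℝ) (hP : Function.Injective P)
    (G : SimpleGraph (Fin (M + 1))) (hG : G.Connected) (hM : 0 < M) (a0 b0 c0 : ℝ)
    (hs1 : 0 < ev a0 b0 c0 (P (Fin.last M)))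
    (hs2 : ∀ i : Fin M, ev a0 b0 c0 (P i.castSucc) < 0)
    (hfew : (hit P G a0 b0 c0).ncard ≤ 2) :
    ∃ G' : SimpleGraph (Fin M), G'.Connected ∧ ∀ a b c, ev a b c (P (Fin.last M)) ≠ 0 →
      (hit (P ∘ Fin.castSucc) G' a b c).ncard ≤ (hit P G a b c).ncard := by
  classical
  have hP' : Function.Injective (P ∘ Fin.castSucc) := hP.comp (Fin.castSucc_injective _)
  set p := Fin.last M with hp
  let N : Set (Fin M) := {i | G.Adj p i.castSucc}
  have hN : N.ncard ≤ 2 := by
    refine le_trans (ncard_le_ncard_of_injOn (fun i : Fin M => s(p, i.castSucc)) ?_ ?_) hfew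
    · intro i hi
      rw [pair_hit hP]
      exact ⟨hi, mul_neg_of_pos_of_neg hs1 (hs2 i)⟩
    · intro i _ j _ hij
      have h := Sym2.eq_iff.1 hij
      rcases h with ⟨_, h⟩ | ⟨h, _⟩
      · exact Fin.castSucc_injective _ h
      · exact absurd h.symm (Fin.castSucc_lt_last _).ne
  obtain ⟨a, ha⟩ : ∃ a, a ∈ N := by
    obtain ⟨w⟩ := hG.preconnected p (Fin.castSucc ⟨0, hM⟩)
    obtain ⟨d, _, d1, d2⟩ := w.exists_boundary_dart {p} rfl (by
      simp only [mem_singleton_iff]
      exact (Fin.castSucc_lt_last _).ne)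
    rw [mem_singleton_iff] at d1 d2
    refine ⟨d.snd.castPred d2, ?_⟩
    change G.Adj p _
    rw [Fin.castSucc_castPred, ← d1]
    exact d.adj
  let G' : SimpleGraph (Fin M) :=
    { Adj := fun i j => i ≠ j ∧ (G.Adj i.castSucc j.castSucc ∨ (i ∈ N ∧ j ∈ N))
      symm := ⟨fun i j h => ⟨h.1.symm, h.2.imp (fun g => g.symm) (fun g => ⟨g.2, g.1⟩)⟩⟩
      loopless := ⟨fun i h => h.1 rfl⟩ }
  have hNr : ∀ i j, i ∈ N → j ∈ N → G'.Reachable i j := by
    intro i j hi hj
    by_cases hij : i = j
    · rw [hij]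
    · exact SimpleGraph.Adj.reachable ⟨hij, Or.inr ⟨hi, hj⟩⟩
  let φ : Fin (M + 1) → Fin M := fun x => if h : x = p then a else x.castPred h
  have hφ : ∀ x y, G.Adj x y → G'.Reachable (φ x) (φ y) := by
    intro x y h
    by_cases hx : x = p
    · by_cases hy : y = p
      · exact absurd (hx.trans hy.symm) h.ne
      · simp only [φ, hx, hy, dif_pos, dif_neg, not_false_eq_true]
        refine hNr _ _ ha ?_
        change G.Adj p _
        rw [Fin.castSucc_castPred, ← hx]; exact h
    · by_cases hy : y = p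
      · simp only [φ, hx, hy, dif_pos, dif_neg, not_false_eq_true]
        refine hNr _ _ ?_ ha
        change G.Adj p _
        rw [Fin.castSucc_castPred, ← hy]; exact h.symm
      · simp only [φ, hx, hy, dif_neg, not_false_eq_true]
        refine SimpleGraph.Adj.reachable ⟨?_, Or.inl ?_⟩
        · intro e
          apply h.ne
          have := congrArg Fin.castSucc e
          simpa using this
        · simpa using h
  have hφw : ∀ x y, G.Reachable x y → G'.Reachable (φ x) (φ y) := by
    rintro x y ⟨w⟩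
    induction w with
    | nil => exact SimpleGraph.Reachable.refl _
    | cons h _ ih => exact (hφ _ _ h).trans ih
  have hφc : ∀ i : Fin M, φ i.castSucc = i := by
    intro i
    simp only [φ]
    rw [dif_neg (Fin.castSucc_lt_last i).ne, Fin.castPred_castSucc]
  have hcon : G'.Connected := by
    have : Nonempty (Fin M) := ⟨⟨0, hM⟩⟩
    refine ⟨fun i j => ?_⟩
    have := hφw _ _ (hG.preconnected i.castSucc j.castSucc)
    rwa [hφc, hφc] at this
  refine ⟨G', hcon, fun a' b' c' hne => ?_⟩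
  set E := hit P G a' b' c' with hE
  -- a stabbed edge at `p` replacing a new edge
  have hnew : ∀ i j : Fin M, i ∈ N → j ∈ N →
      ev a' b' c' (P i.castSucc) * ev a' b' c' (P j.castSucc) < 0 →
      ∃ z ∈ N, s(p, z.castSucc) ∈ E := by
    intro i j hi hj h
    by_cases h1 : ev a' b' c' (P p) * ev a' b' c' (P i.castSucc) < 0
    · exact ⟨i, hi, (pair_hit hP _ _ _ _ _ _).2 ⟨hi, h1⟩⟩
    · refine ⟨j, hj, (pair_hit hP _ _ _ _ _ _).2 ⟨hj, ?_⟩⟩
      rcases lt_or_gt_of_ne hne with g | g
      · rcases mul_neg_iff.1 h with ⟨h2, h3⟩ | ⟨h2, h3⟩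
        · exact absurd (mul_neg_of_neg_of_pos g h2) h1
        · exact mul_neg_of_neg_of_pos g h3
      · rcases mul_neg_iff.1 h with ⟨h2, h3⟩ | ⟨h2, h3⟩
        · exact mul_neg_of_pos_of_neg g h3
        · exact absurd (mul_neg_of_pos_of_neg g h2) h1
  let z0 : Fin M := if h : ∃ z ∈ N, s(p, z.castSucc) ∈ E then h.choose else a
  let g : Sym2 (Fin M) → Sym2 (Fin (M + 1)) := fun e =>
    if e.map Fin.castSucc ∈ E then e.map Fin.castSucc else s(p, z0.castSucc)
  have hcase : ∀ e ∈ hit (P ∘ Fin.castSucc) G' a' b' c', e.map Fin.castSucc ∉ E →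
      ∃ i j, e = s(i, j) ∧ i ≠ j ∧ i ∈ N ∧ j ∈ N ∧
        ev a' b' c' (P i.castSucc) * ev a' b' c' (P j.castSucc) < 0 := by
    intro e he hn
    obtain ⟨i, j, rfl, ⟨h1, h2⟩, h3⟩ := (mem_hit hP' _ _ _ _ _).1 he
    rcases h2 with h2 | h2
    · exact absurd ((pair_hit hP _ _ _ _ _ _).2 ⟨h2, h3⟩) hn
    · exact ⟨i, j, rfl, h1, h2.1, h2.2, h3⟩
  refine ncard_le_ncard_of_injOn g ?_ ?_
  · intro e he
    by_cases h : e.map Fin.castSucc ∈ E
    · simp only [g, if_pos h]; exact h
    · simp only [g, if_neg h]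
      obtain ⟨i, j, rfl, _, hi, hj, h3⟩ := hcase e he h
      have hex := hnew i j hi hj h3
      have : z0 = hex.choose := dif_pos hex
      rw [this]
      exact hex.choose_spec.2
  · intro e1 he1 e2 he2 h12
    by_cases h1 : e1.map Fin.castSucc ∈ E
    · by_cases h2 : e2.map Fin.castSucc ∈ E
      · simp only [g, if_pos h1, if_pos h2] at h12
        exact Sym2.map.injective (Fin.castSucc_injective _) h12
      · simp only [g, if_pos h1, if_neg h2] at h12
        have : p ∈ e1.map Fin.castSucc := by rw [h12]; exact Sym2.mem_mk_left _ _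
        obtain ⟨x, _, hx⟩ := Sym2.mem_map.1 this
        exact absurd hx (Fin.castSucc_lt_last x).ne
    · by_cases h2 : e2.map Fin.castSucc ∈ E
      · simp only [g, if_neg h1, if_pos h2] at h12
        have : p ∈ e2.map Fin.castSucc := by rw [← h12]; exact Sym2.mem_mk_left _ _
        obtain ⟨x, _, hx⟩ := Sym2.mem_map.1 this
        exact absurd hx (Fin.castSucc_lt_last x).ne
      · obtain ⟨i, j, rfl, hij, hi, hj, _⟩ := hcase e1 he1 h1
        obtain ⟨i', j', rfl, hij', hi', hj', _⟩ := hcase e2 he2 h2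
        have hNe : ∀ x y : Fin M, x ≠ y → x ∈ N → y ∈ N → N = {x, y} := by
          intro x y hxy hx hy
          refine (Set.eq_of_subset_of_ncard_le (s := {x, y}) ?_ ?_).symm
          · intro z hz
            rcases hz with rfl | hz
            · exact hx
            · rw [mem_singleton_iff] at hz; rw [hz]; exact hy
          · rw [ncard_pair hxy]; exact hN
        have e1 := hNe i j hij hi hj
        have e2 := hNe i' j' hij' hi' hj'
        rw [e1] at e2
        rw [Sym2.eq_iff]
        have m1 : i ∈ ({i', j'} : Set (Fin M)) := e2 ▸ (by simp)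
        have m2 : j ∈ ({i', j'} : Set (Fin M)) := e2 ▸ (by simp)
        simp only [mem_insert_iff, mem_singleton_iff] at m1 m2
        rcases m1 with m1 | m1 <;> rcases m2 with m2 | m2
        · exact absurd (m1.trans m2.symm) hij
        · exact Or.inl ⟨m1, m2⟩
        · exact Or.inr ⟨m1, m2⟩
        · exact absurd (m1.trans m2.symm) hij

/-- the points of the subconfiguration -/
def R : ℕ → ℤ × ℤ
  | 0 => (1, 0)
  | 1 => (2, 0)
  | 2 => (0, 1)
  | 3 => (0, 2)
  | 4 => (-1, -1)
  | (j + 5) => (j + 3, 0)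

/-- the subconfiguration with `k` points -/
def Q (k : ℕ) (i : Fin k) : ℝ × ℝ := ((R i).1, (R i).2)

theorem R_inj : Function.Injective R := by
  intro i j h
  match i, j with
  | 0, 0 => rfl
  | 1, 1 => rfl
  | 2, 2 => rfl
  | 3, 3 => rfl
  | 4, 4 => rfl
  | (i + 5), (j + 5) => simp [R] at h; omega
  | 0, 1 => simp [R] at h
  | 0, 2 => simp [R] at h
  | 0, 3 => simp [R] at h
  | 0, 4 => simp [R] at h
  | 1, 0 => simp [R] at h
  | 1, 2 => simp [R] at h
  | 1, 3 => simp [R] at h
  | 1, 4 => simp [R] at h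
  | 2, 0 => simp [R] at h
  | 2, 1 => simp [R] at h
  | 2, 3 => simp [R] at h
  | 2, 4 => simp [R] at h
  | 3, 0 => simp [R] at h
  | 3, 1 => simp [R] at h
  | 3, 2 => simp [R] at h
  | 3, 4 => simp [R] at h
  | 4, 0 => simp [R] at h
  | 4, 1 => simp [R] at h
  | 4, 2 => simp [R] at h
  | 4, 3 => simp [R] at h
  | 0, (j + 5) => simp [R] at h; omega
  | 1, (j + 5) => simp [R] at h; omega
  | 2, (j + 5) => simp [R] at h
  | 3, (j + 5) => simp [R] at h
  | 4, (j + 5) => simp [R] at h
  | (i + 5), 0 => simp [R] at h; omega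
  | (i + 5), 1 => simp [R] at h; omega
  | (i + 5), 2 => simp [R] at h
  | (i + 5), 3 => simp [R] at h
  | (i + 5), 4 => simp [R] at h

theorem Q_inj (k : ℕ) : Function.Injective (Q k) := by
  intro i j h
  simp only [Q, Prod.mk.injEq, Int.cast_inj] at h
  exact Fin.ext (R_inj (Prod.ext h.1 h.2))

theorem lines_good : ∀ l ∈ lines, (l.1 ≠ 0 ∨ l.2.1 ≠ 0) ∧ ∀ j : ℕ, l.1 * (j + 3) - l.2.2 ≠ 0 := by
  intro l hl
  simp only [lines, List.mem_cons, List.not_mem_nil, or_false] at hl
  rcases hl with rfl | rfl | rfl | rfl | rfl | rfl | rfl | rfl | rfl | rfl <;>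
    refine ⟨by decide, fun j => ?_⟩ <;> simp only <;> omega

/-- every connected graph on the subconfiguration has a line stabbing three of its edges -/
theorem low (m : ℕ) : ∀ G : SimpleGraph (Fin (m + 5)), G.Connected →
    ∃ l : ℤ × ℤ × ℤ, (l.1 ≠ 0 ∨ l.2.1 ≠ 0) ∧ (∀ j : ℕ, m ≤ j → l.1 * (j + 3) - l.2.2 ≠ 0) ∧
      3 ≤ (hit (Q (m + 5)) G l.1 l.2.1 l.2.2).ncard := by
  induction m with
  | zero =>
    intro T h
    classical
    let x : Fin 10 → Bool := fun i => decide (T.Adj (L i).1 (L i).2)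
    have hx : ![x 0, x 1, x 2, x 3, x 4, x 5, x 6, x 7, x 8, x 9] = x := by
      ext i; fin_cases i <;> rfl
    have := fin (x 0) (x 1) (x 2) (x 3) (x 4) (x 5) (x 6) (x 7) (x 8) (x 9)
    rw [hx] at this
    obtain ⟨⟨a, b, c⟩, hmem, _, hc⟩ := this fun A h0 ⟨j, hj⟩ => by
      obtain ⟨w⟩ := h.preconnected 0 j
      obtain ⟨d, _, d1, d2⟩ := w.exists_boundary_dart {i | A i = true} h0 (by simp [hj])
      have cov : ∀ u v : Fin 5, u ≠ v → ∃ i, L i = (u, v) ∨ L i = (v, u) := by decide
      obtain ⟨i, e | e⟩ := cov _ _ d.adj.ne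
      · exact ⟨i, by simp [x, e, d.adj], by simp_all⟩
      · exact ⟨i, by simp [x, e, d.adj.symm], by simp_all⟩
    obtain ⟨g1, g2⟩ := lines_good _ hmem
    refine ⟨(a, b, c), g1, fun j _ => g2 j, ?_⟩
    have inj : Function.Injective fun i => s((L i).1, (L i).2) := by decide
    rw [← Finset.card_image_of_injective _ inj, ← ncard_coe_finset] at hc
    refine hc.trans (ncard_le_ncard ?_)
    intro e he
    simp only [Finset.coe_image, Finset.coe_filter, Finset.mem_univ, true_and, mem_image,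
      mem_ofPred_eq, x, decide_eq_true_eq] at he
    obtain ⟨i, ⟨h1, h2⟩, rfl⟩ := he
    refine (pair_hit (Q_inj 5) _ _ _ _ _ _).2 ⟨h1, ?_⟩
    have hf : ∀ i : Fin 5, ((f (a, b, c) i : ℤ) : ℝ) = ev a b c (Q 5 i) := by
      intro i
      fin_cases i <;> simp [f, ev, Q, R, Counter.Z]
    rw [← hf, ← hf]
    exact_mod_cast h2
  | succ m ih =>
    intro G hG
    have hlast : Q (m + 1 + 5) (Fin.last (m + 5)) = ((m : ℝ) + 3, 0) := by
      simp [Q, R, Fin.last]
    by_cases hfew : (hit (Q (m + 1 + 5)) G 2 0 (2 * m + 5)).ncard ≤ 2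
    · obtain ⟨G', hG', h⟩ := step (M := m + 5) (Q (m + 1 + 5)) (Q_inj _) G hG (by omega)
        2 0 (2 * m + 5) (by rw [hlast]; simp only [ev]; linarith) (by
          intro i
          have : (R i).1 ≤ m + 2 := by
            rcases i with ⟨i, hi⟩
            simp only
            match i, hi with
            | 0, _ => simp [R]; omega
            | 1, _ => simp [R]
            | 2, _ => simp [R]; omega
            | 3, _ => simp [R]; omega
            | 4, _ => simp [R]; omega
            | (i + 5), h => simp [R]; omega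
          have h2 : ((R i).1 : ℝ) ≤ m + 2 := by exact_mod_cast this
          simp only [ev, Q, Fin.val_castSucc]
          linarith) hfew
      obtain ⟨l, h1, h2, h3⟩ := ih G' hG'
      refine ⟨l, h1, fun j hj => h2 j (by omega), h3.trans (h _ _ _ ?_)⟩
      rw [hlast]
      have := h2 m le_rfl
      simp only [ev]
      intro h0
      apply this
      have h4 : (l.1 : ℝ) * (m + 3) - l.2.2 = 0 := by linarith
      exact_mod_cast h4
    · push Not at hfew
      refine ⟨(2, 0, 2 * m + 5), Or.inl (by simp), fun j hj => ?_, ?_⟩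
      · simp only; omega
      · have h3 := Nat.succ_le_of_lt hfew
        simpa using h3

theorem low' (k : ℕ) (hk : 5 ≤ k) : 3 ≤ treeStab (Q k) := by
  obtain ⟨m, rfl⟩ := Nat.exists_eq_add_of_le' hk
  refine le_csInf ?_ ?_
  · obtain ⟨T, _, hT⟩ := (SimpleGraph.connected_top (V := Fin (m + 5))).exists_isTree_le
    exact ⟨_, T, hT, rfl⟩
  · rintro k ⟨T, hT, rfl⟩
    obtain ⟨l, h1, _, h3⟩ := low m T hT.connected
    refine h3.trans (le_csSup (bdd _ T) ⟨l.1, l.2.1, l.2.2, ?_, rfl⟩)
    intro e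
    simp only [Prod.mk_eq_zero, Int.cast_eq_zero] at e
    tauto

/-- a connected graph in which every line stabs at most `k` edges bounds the tree stabbing number -/
theorem treeStab_le {n k : ℕ} (P : Fin n → ℝ × ℝ) (G : SimpleGraph (Fin n)) (hG : G.Connected)
    (h : ∀ a b c, (hit P G a b c).ncard ≤ k) : treeStab P ≤ k := by
  obtain ⟨T, hTG, hT⟩ := hG.exists_isTree_le
  refine le_trans (b := stab P T) (Nat.sInf_le ⟨T, hT, rfl⟩) (csSup_le' ?_)
  rintro x ⟨a, b, c, _, rfl⟩
  refine le_trans (ncard_le_ncard ?_) (h a b c)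
  rintro e ⟨i, j, rfl, h1, h2⟩
  exact ⟨i, j, rfl, hTG h1, h2⟩

/-- the points of the large configuration -/
def RP : ℕ → ℤ × ℤ
  | 0 => (0, 0)
  | (i + 1) => R i

/-- the large configuration with `n` points -/
def P (n : ℕ) (i : Fin n) : ℝ × ℝ := ((RP i).1, (RP i).2)

theorem RP_inj : Function.Injective RP := by
  have h0 : ∀ i, R i ≠ (0, 0) := by
    intro i
    match i with
    | 0 => simp [R]
    | 1 => simp [R]
    | 2 => simp [R]
    | 3 => simp [R]
    | 4 => simp [R]
    | (i + 5) => simp [R]; omega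
  intro i j h
  match i, j with
  | 0, 0 => rfl
  | 0, (j + 1) => exact absurd h.symm (h0 j)
  | (i + 1), 0 => exact absurd h (h0 i)
  | (i + 1), (j + 1) => rw [R_inj h]

theorem P_inj (n : ℕ) : Function.Injective (P n) := by
  intro i j h
  simp only [P, Prod.mk.injEq, Int.cast_inj] at h
  exact Fin.ext (RP_inj (Prod.ext h.1 h.2))

/-- parents in the spider -/
def par : ℕ → ℕ
  | 0 => 0
  | 1 => 0
  | 2 => 1
  | 3 => 0
  | 4 => 3
  | 5 => 0
  | 6 => 2
  | (i + 7) => i + 6

theorem par_lt (i : ℕ) (h : i ≠ 0) : par i < i := by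
  match i, h with
  | 1, _ => simp [par]
  | 2, _ => simp [par]
  | 3, _ => simp [par]
  | 4, _ => simp [par]
  | 5, _ => simp [par]
  | 6, _ => simp [par]
  | (i + 7), _ => simp [par]

/-- the three arms -/
theorem arms (i : ℕ) (h : i ≠ 0) :
    (∃ t : ℕ, RP i = ((t : ℤ) + 1, 0) ∧ RP (par i) = ((t : ℤ), 0)) ∨
    (∃ t : ℕ, RP i = (0, (t : ℤ) + 1) ∧ RP (par i) = (0, (t : ℤ))) ∨
    (RP i = (-1, -1) ∧ RP (par i) = (0, 0)) := by
  match i, h with
  | 1, _ => exact Or.inl ⟨0, by simp [RP, R, par]⟩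
  | 2, _ => exact Or.inl ⟨1, by simp [RP, R, par]⟩
  | 3, _ => exact Or.inr (Or.inl ⟨0, by simp [RP, R, par]⟩)
  | 4, _ => exact Or.inr (Or.inl ⟨1, by simp [RP, R, par]⟩)
  | 5, _ => exact Or.inr (Or.inr (by simp [RP, R, par]))
  | 6, _ => exact Or.inl ⟨2, by simp [RP, R, par]⟩
  | (i + 7), _ => exact Or.inl ⟨i + 3, by simp [RP, R, par]; ring⟩

theorem cross_pos (a c : ℝ) (t : ℕ) (h : (a * (t + 1) - c) * (a * t - c) < 0) : 0 < a * c := by
  have ht : (0 : ℝ) ≤ t := Nat.cast_nonneg t
  rcases lt_trichotomy a 0 with g | g | g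
  · rcases mul_neg_iff.1 h with ⟨h1, h2⟩ | ⟨h1, h2⟩
    · nlinarith
    · have : a * t ≤ 0 := by nlinarith
      nlinarith
  · subst g; nlinarith [sq_nonneg c]
  · rcases mul_neg_iff.1 h with ⟨h1, h2⟩ | ⟨h1, h2⟩
    · have : 0 ≤ a * t := by positivity
      nlinarith
    · nlinarith

theorem cross_lt (a c : ℝ) (t u : ℕ) (h : (a * (t + 1) - c) * (a * t - c) < 0)
    (h' : (a * (u + 1) - c) * (a * u - c) < 0) : ¬ t < u := by
  intro hlt
  have ht : (t : ℝ) + 1 ≤ u := by exact_mod_cast hlt
  rcases lt_trichotomy a 0 with g | g | g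
  · have : a * u ≤ a * (t + 1) := mul_le_mul_of_nonpos_left ht g.le
    rcases mul_neg_iff.1 h with ⟨h1, h2⟩ | ⟨h1, h2⟩
    · nlinarith
    · rcases mul_neg_iff.1 h' with ⟨h3, h4⟩ | ⟨h3, h4⟩
      · nlinarith
      · linarith
  · subst g; nlinarith [sq_nonneg c]
  · have : a * (t + 1) ≤ a * u := mul_le_mul_of_nonneg_left ht g.le
    rcases mul_neg_iff.1 h with ⟨h1, h2⟩ | ⟨h1, h2⟩
    · rcases mul_neg_iff.1 h' with ⟨h3, h4⟩ | ⟨h3, h4⟩
      · linarith
      · nlinarith
    · nlinarith

theorem up (n : ℕ) (hn : 0 < n) : treeStab (P n) ≤ 2 := by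
  classical
  let q : Fin n → Fin n := fun i => ⟨par i, by
    by_cases h : (i : ℕ) = 0
    · rw [h]; exact hn
    · exact (par_lt _ h).trans i.2⟩
  let G : SimpleGraph (Fin n) :=
    { Adj := fun i j => i ≠ j ∧ (q i = j ∨ q j = i)
      symm := ⟨fun i j h => ⟨h.1.symm, h.2.symm⟩⟩
      loopless := ⟨fun i h => h.1 rfl⟩ }
  have hroot : ∀ m : ℕ, ∀ i : Fin n, (i : ℕ) = m → G.Reachable i ⟨0, hn⟩ := by
    intro m
    induction m using Nat.strong_induction_on with
    | _ m ih =>
      intro i hi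
      by_cases h0 : (i : ℕ) = 0
      · have : i = ⟨0, hn⟩ := Fin.ext h0
        rw [this]
      · have hlt := par_lt _ h0
        have hadj : G.Adj i (q i) := ⟨fun e => by
          have := congrArg Fin.val e
          simp only [q] at this
          omega, Or.inl rfl⟩
        exact hadj.reachable.trans (ih (q i) (by simp only [q]; omega) (q i) rfl)
  have hG : G.Connected := by
    have : Nonempty (Fin n) := ⟨⟨0, hn⟩⟩
    exact ⟨fun i j => (hroot _ i rfl).trans (hroot _ j rfl).symm⟩
  refine treeStab_le (P n) G hG fun a b c => ?_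
  let H : Set (Fin n) := {i | (i : ℕ) ≠ 0 ∧ ev a b c (P n i) * ev a b c (P n (q i)) < 0}
  let HX : Set (Fin n) := {i | ∃ t : ℕ, RP i = ((t : ℤ) + 1, 0) ∧
    (a * (t + 1) - c) * (a * t - c) < 0}
  let HY : Set (Fin n) := {i | ∃ t : ℕ, RP i = (0, (t : ℤ) + 1) ∧
    (b * (t + 1) - c) * (b * t - c) < 0}
  let HZ : Set (Fin n) := {i | RP i = (-1, -1) ∧ (a + b + c) * c < 0}
  have h1 : (hit (P n) G a b c).ncard ≤ H.ncard := by
    have hsub : hit (P n) G a b c ⊆ (fun i => s(i, q i)) '' H := by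
      intro e he
      obtain ⟨i, j, rfl, ⟨hij, h | h⟩, g⟩ := (mem_hit (P_inj n) _ _ _ _ _).1 he
      · refine ⟨i, ⟨?_, by rw [h]; exact g⟩, by simp only; rw [h]⟩
        intro h0
        apply hij
        apply Fin.ext
        rw [← h]
        simp only [q, h0, par]
      · refine ⟨j, ⟨?_, by rw [h, mul_comm]; exact g⟩, by simp only; rw [h]; exact Sym2.eq_swap⟩
        intro h0
        apply hij
        apply Fin.ext
        rw [← h]
        simp only [q, h0, par]
    exact (ncard_le_ncard hsub).trans (ncard_image_le)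
  have h2 : H ⊆ HX ∪ (HY ∪ HZ) := by
    rintro i ⟨h0, h⟩
    have hPq : P n (q i) = (((RP (par i)).1 : ℝ), ((RP (par i)).2 : ℝ)) := rfl
    have hPi : P n i = (((RP i).1 : ℝ), ((RP i).2 : ℝ)) := rfl
    rw [hPq, hPi] at h
    rcases arms i h0 with ⟨t, e1, e2⟩ | ⟨t, e1, e2⟩ | ⟨e1, e2⟩
    · refine Or.inl ⟨t, e1, ?_⟩
      rw [e1, e2] at h
      simpa [ev] using h
    · refine Or.inr (Or.inl ⟨t, e1, ?_⟩)
      rw [e1, e2] at h
      simpa [ev] using h
    · refine Or.inr (Or.inr ⟨e1, ?_⟩)
      rw [e1, e2] at h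
      simp [ev] at h
      nlinarith
  have sX : HX.ncard ≤ 1 := by
    rw [ncard_le_one_iff]
    rintro i j ⟨t, e1, g1⟩ ⟨u, e2, g2⟩
    have : t = u := le_antisymm (not_lt.1 (cross_lt a c u t g2 g1)) (not_lt.1 (cross_lt a c t u g1 g2))
    rw [this] at e1
    exact Fin.ext (RP_inj (e1.trans e2.symm))
  have sY : HY.ncard ≤ 1 := by
    rw [ncard_le_one_iff]
    rintro i j ⟨t, e1, g1⟩ ⟨u, e2, g2⟩
    have : t = u := le_antisymm (not_lt.1 (cross_lt b c u t g2 g1)) (not_lt.1 (cross_lt b c t u g1 g2))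
    rw [this] at e1
    exact Fin.ext (RP_inj (e1.trans e2.symm))
  have sZ : HZ.ncard ≤ 1 := by
    rw [ncard_le_one_iff]
    rintro i j ⟨e1, _⟩ ⟨e2, _⟩
    exact Fin.ext (RP_inj (e1.trans e2.symm))
  have hsum : H.ncard ≤ HX.ncard + (HY.ncard + HZ.ncard) :=
    (ncard_le_ncard h2).trans ((ncard_union_le _ _).trans (Nat.add_le_add_left (ncard_union_le _ _) _))
  have hzero : HX.ncard = 0 ∨ HY.ncard = 0 ∨ HZ.ncard = 0 := by
    by_contra hcon
    push Not at hcon
    obtain ⟨n1, n2, n3⟩ := hcon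
    obtain ⟨i, t, _, g1⟩ := nonempty_of_ncard_ne_zero n1
    obtain ⟨j, u, _, g2⟩ := nonempty_of_ncard_ne_zero n2
    obtain ⟨l, _, g3⟩ := nonempty_of_ncard_ne_zero n3
    have p1 := cross_pos a c t g1
    have p2 := cross_pos b c u g2
    nlinarith [sq_nonneg c]
  omega

/-! ### Few points -/

theorem exists_tree {n : ℕ} (hn : 0 < n) (P : Fin n → ℝ × ℝ) :
    ∃ T : SimpleGraph (Fin n), T.IsTree ∧ treeStab P = stab P T := by
  have hne : {k | ∃ T : SimpleGraph (Fin n), T.IsTree ∧ k = stab P T}.Nonempty := by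
    have : Nonempty (Fin n) := ⟨⟨0, hn⟩⟩
    obtain ⟨T, _, hT⟩ := (SimpleGraph.connected_top (V := Fin n)).exists_isTree_le
    exact ⟨_, T, hT, rfl⟩
  exact Nat.sInf_mem hne

theorem hit_le_stab {n : ℕ} (P : Fin n → ℝ × ℝ) (T : SimpleGraph (Fin n)) (a b c : ℝ)
    (h : a ≠ 0 ∨ b ≠ 0) : (hit P T a b c).ncard ≤ stab P T := by
  refine le_csSup (bdd P T) ⟨a, b, c, ?_, rfl⟩
  intro e
  simp only [Prod.mk_eq_zero] at e
  tauto

/-- in a tree of stabbing number one adjacent edges are collinear -/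
theorem collinear3 {n : ℕ} {P : Fin n → ℝ × ℝ} (hP : Function.Injective P)
    (T : SimpleGraph (Fin n)) (h1 : stab P T ≤ 1) (u v w : Fin n) (huv : T.Adj v u)
    (hvw : T.Adj v w) (huw : u ≠ w) :
    ((P u).1 - (P v).1) * ((P w).2 - (P v).2) - ((P u).2 - (P v).2) * ((P w).1 - (P v).1) = 0 := by
  by_contra hD
  set D := ((P u).1 - (P v).1) * ((P w).2 - (P v).2)
    - ((P u).2 - (P v).2) * ((P w).1 - (P v).1) with hDdef
  let a : ℝ := -2 * ((P w).2 - (P u).2) / D
  let b : ℝ := -2 * ((P u).1 - (P w).1) / D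
  let c : ℝ := a * (P v).1 + b * (P v).2 - 1
  have e1 : ev a b c (P v) = 1 := by simp only [ev, c]; ring
  have e2 : ev a b c (P u) = -1 := by
    have : a * ((P u).1 - (P v).1) + b * ((P u).2 - (P v).2) = -2 := by
      simp only [a, b]
      field_simp
      rw [hDdef]; ring
    simp only [ev, c]
    linarith
  have e3 : ev a b c (P w) = -1 := by
    have : a * ((P w).1 - (P v).1) + b * ((P w).2 - (P v).2) = -2 := by
      simp only [a, b]
      field_simp
      rw [hDdef]; ring
    simp only [ev, c]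
    linarith
  have hab : a ≠ 0 ∨ b ≠ 0 := by
    by_contra hcon
    push Not at hcon
    simp only [ev, hcon.1, hcon.2] at e1 e2
    linarith
  have m1 : s(v, u) ∈ hit P T a b c := (pair_hit hP _ _ _ _ _ _).2 ⟨huv, by rw [e1, e2]; norm_num⟩
  have m2 : s(v, w) ∈ hit P T a b c := (pair_hit hP _ _ _ _ _ _).2 ⟨hvw, by rw [e1, e3]; norm_num⟩
  have hle := (hit_le_stab P T a b c hab).trans h1
  have := (ncard_le_one_iff (toFinite _)).1 hle m1 m2
  rcases Sym2.eq_iff.1 this with ⟨_, h⟩ | ⟨h, h'⟩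
  · exact huw h
  · exact huw (h'.trans h)

/-- a configuration of tree stabbing number at most one is collinear -/
theorem collinear {n : ℕ} (hn : 2 ≤ n) {P : Fin n → ℝ × ℝ} (hP : Function.Injective P)
    (h1 : treeStab P ≤ 1) : ∃ a b c : ℝ, (a ≠ 0 ∨ b ≠ 0) ∧ ∀ i, ev a b c (P i) = 0 := by
  obtain ⟨T, hT, hTs⟩ := exists_tree (by omega) P
  rw [hTs] at h1
  obtain ⟨x, y, hxy⟩ : ∃ x y, T.Adj x y := by
    obtain ⟨w⟩ := hT.connected.preconnected ⟨0, by omega⟩ ⟨1, by omega⟩
    obtain ⟨d, _⟩ := w.exists_boundary_dart {i | (i : ℕ) = 0} rfl (fun h => one_ne_zero h)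
    exact ⟨_, _, d.adj⟩
  have hne : P x ≠ P y := hP.ne hxy.ne
  let a : ℝ := (P y).2 - (P x).2
  let b : ℝ := -((P y).1 - (P x).1)
  let c : ℝ := a * (P x).1 + b * (P x).2
  have hab : a ≠ 0 ∨ b ≠ 0 := by
    by_contra hcon
    push Not at hcon
    apply hne
    refine Prod.ext ?_ ?_
    · have := hcon.2
      simp only [b] at this
      linarith
    · have := hcon.1
      simp only [a] at this
      linarith
  have hx0 : ev a b c (P x) = 0 := by simp only [ev, c]; ring
  have hy0 : ev a b c (P y) = 0 := by simp only [ev, c, a, b]; ring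
  refine ⟨a, b, c, hab, ?_⟩
  have hstep : ∀ v w, T.Adj v w → (ev a b c (P v) = 0 ∧ ∃ u, T.Adj v u ∧ ev a b c (P u) = 0) →
      (ev a b c (P w) = 0 ∧ ∃ u, T.Adj w u ∧ ev a b c (P u) = 0) := by
    rintro v w hvw ⟨hv, u, hvu, hu⟩
    refine ⟨?_, v, hvw.symm, hv⟩
    by_cases huw : u = w
    · rw [← huw]; exact hu
    · have hD := collinear3 hP T h1 u v w hvu hvw huw
      have hne2 : P u ≠ P v := hP.ne hvu.ne.symm
      have hpq : a * ((P u).1 - (P v).1) + b * ((P u).2 - (P v).2) = 0 := by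
        simp only [ev] at hu hv; linarith
      have k1 : ((P u).1 - (P v).1) * (a * ((P w).1 - (P v).1) + b * ((P w).2 - (P v).2)) = 0 := by
        linear_combination ((P w).1 - (P v).1) * hpq + b * hD
      have k2 : ((P u).2 - (P v).2) * (a * ((P w).1 - (P v).1) + b * ((P w).2 - (P v).2)) = 0 := by
        linear_combination ((P w).2 - (P v).2) * hpq - a * hD
      have k3 : a * ((P w).1 - (P v).1) + b * ((P w).2 - (P v).2) = 0 := by
        by_contra hcon
        apply hne2
        refine Prod.ext ?_ ?_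
        · have := (mul_eq_zero.1 k1).resolve_right hcon
          linarith
        · have := (mul_eq_zero.1 k2).resolve_right hcon
          linarith
      simp only [ev] at hv ⊢
      linarith
  have hall : ∀ v w, T.Reachable v w → (ev a b c (P v) = 0 ∧ ∃ u, T.Adj v u ∧ ev a b c (P u) = 0) →
      (ev a b c (P w) = 0 ∧ ∃ u, T.Adj w u ∧ ev a b c (P u) = 0) := by
    rintro v w ⟨p⟩
    induction p with
    | nil => exact id
    | cons h _ ih => exact fun g => ih (hstep _ _ h g)
  intro i
  exact (hall x i (hT.connected.preconnected x i) ⟨hx0, y, hxy, hy0⟩).1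

/-- a collinear configuration has tree stabbing number at most one -/
theorem collinear_le {k : ℕ} {Q : Fin (k + 1) → ℝ × ℝ} (hQ : Function.Injective Q) (a b c : ℝ)
    (hab : a ≠ 0 ∨ b ≠ 0) (h : ∀ i, ev a b c (Q i) = 0) : treeStab Q ≤ 1 := by
  classical
  have hpos : 0 < a ^ 2 + b ^ 2 := by
    rcases hab with g | g
    · have := sq_nonneg b
      have := pow_pos (abs_pos.2 g) 2
      rw [sq_abs] at this
      linarith
    · have := sq_nonneg a
      have := pow_pos (abs_pos.2 g) 2
      rw [sq_abs] at this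
      linarith
  let t : Fin (k + 1) → ℝ := fun i => b * (Q i).1 - a * (Q i).2
  let σ : Equiv.Perm (Fin (k + 1)) := Tuple.sort t
  have hmono : Monotone (t ∘ σ) := Tuple.monotone_sort t
  let G : SimpleGraph (Fin (k + 1)) := (SimpleGraph.pathGraph (k + 1)).comap σ.symm
  have hG : G.Connected := by
    have e : G ≃g SimpleGraph.pathGraph (k + 1) := SimpleGraph.Iso.comap σ.symm _
    exact e.connected_iff.2 (SimpleGraph.pathGraph_connected k)
  refine treeStab_le Q G hG fun a' b' c' => ?_
  let g : Fin (k + 1) → ℝ := fun i => ev a' b' c' (Q (σ i))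
  have hg : ∀ i, g i = (c * (a' * a + b' * b) / (a ^ 2 + b ^ 2) - c')
      + (a' * b - b' * a) / (a ^ 2 + b ^ 2) * t (σ i) := by
    intro i
    have := h (σ i)
    simp only [ev] at this
    simp only [g, ev, t]
    field_simp
    linear_combination (a' * a + b' * b) * this
  have hmon : Monotone g ∨ Antitone g := by
    rcases le_total 0 ((a' * b - b' * a) / (a ^ 2 + b ^ 2)) with h0 | h0
    · left
      intro i j hij
      rw [hg, hg]
      have := mul_le_mul_of_nonneg_left (hmono hij) h0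
      simp only [Function.comp] at this
      linarith
    · right
      intro i j hij
      rw [hg, hg]
      have := mul_le_mul_of_nonpos_left (hmono hij) h0
      simp only [Function.comp] at this
      linarith
  let H : Set (Fin k) := {i | g i.castSucc * g i.succ < 0}
  have hsub : hit Q G a' b' c' ⊆ (fun i : Fin k => s(σ i.castSucc, σ i.succ)) '' H := by
    have main : ∀ i j, (σ.symm i : ℕ) + 1 = σ.symm j → ev a' b' c' (Q i) * ev a' b' c' (Q j) < 0 →
        s(i, j) ∈ (fun i : Fin k => s(σ i.castSucc, σ i.succ)) '' H := by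
      intro i j hij hlt
      have hk : (σ.symm i : ℕ) < k := by
        have := (σ.symm j).2
        omega
      let x : Fin k := ⟨σ.symm i, hk⟩
      have x1 : x.castSucc = σ.symm i := rfl
      have x2 : x.succ = σ.symm j := Fin.ext hij
      refine ⟨x, ?_, ?_⟩
      · change g x.castSucc * g x.succ < 0
        simp only [g]
        rw [x1, x2, Equiv.apply_symm_apply, Equiv.apply_symm_apply]
        exact hlt
      · simp only
        rw [x1, x2, Equiv.apply_symm_apply, Equiv.apply_symm_apply]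
    intro e he
    obtain ⟨i, j, rfl, hadj, hlt⟩ := (mem_hit hQ _ _ _ _ _).1 he
    have hadj' : (SimpleGraph.pathGraph (k + 1)).Adj (σ.symm i) (σ.symm j) := hadj
    rw [SimpleGraph.pathGraph_adj] at hadj'
    rcases hadj' with h2 | h2
    · exact main i j h2 hlt
    · rw [Sym2.eq_swap]
      exact main j i h2 (by rw [mul_comm]; exact hlt)
  refine (ncard_le_ncard hsub).trans ((ncard_image_le).trans ?_)
  rw [ncard_le_one_iff]
  have key : ∀ i j : Fin k, i < j → g i.castSucc * g i.succ < 0 → g j.castSucc * g j.succ < 0 →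
      False := by
    intro i j hij h1 h2
    have o1 : i.castSucc ≤ i.succ := (Fin.castSucc_lt_succ).le
    have o2 : i.succ ≤ j.castSucc := by
      rw [Fin.le_def]; simp only [Fin.val_succ, Fin.val_castSucc]; exact hij
    have o3 : j.castSucc ≤ j.succ := (Fin.castSucc_lt_succ).le
    rcases hmon with m | m
    · have a1 := m o1
      have a2 := m o2
      have a3 := m o3
      rcases mul_neg_iff.1 h1 with ⟨p1, p2⟩ | ⟨p1, p2⟩ <;>
        rcases mul_neg_iff.1 h2 with ⟨q1, q2⟩ | ⟨q1, q2⟩ <;> linarith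
    · have a1 := m o1
      have a2 := m o2
      have a3 := m o3
      rcases mul_neg_iff.1 h1 with ⟨p1, p2⟩ | ⟨p1, p2⟩ <;>
        rcases mul_neg_iff.1 h2 with ⟨q1, q2⟩ | ⟨q1, q2⟩ <;> linarith
  intro i j hi hj
  rcases lt_trichotomy i j with h1 | h1 | h1
  · exact (key i j h1 hi hj).elim
  · exact h1
  · exact (key j i h1 hj hi).elim

/-- at most four points have tree stabbing number at most two -/
theorem four {k : ℕ} (hk : k + 1 ≤ 4) {Q : Fin (k + 1) → ℝ × ℝ} (hQ : Function.Injective Q) :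
    treeStab Q ≤ 2 := by
  classical
  -- the edges of a tree
  have hcard : ∀ T : SimpleGraph (Fin (k + 1)), T.IsTree → T.edgeSet.ncard = k := by
    intro T hT
    have h1 := hT.card_edgeFinset
    rw [Fintype.card_fin] at h1
    rw [← SimpleGraph.coe_edgeFinset, ncard_coe_finset]
    omega
  have hsubE : ∀ (T : SimpleGraph (Fin (k + 1))) (a b c : ℝ), hit Q T a b c ⊆ T.edgeSet := by
    rintro T a b c e ⟨i, j, rfl, h, _⟩
    exact h
  by_cases hk3 : k ≤ 2
  · obtain ⟨T, _, hT⟩ := (SimpleGraph.connected_top (V := Fin (k + 1))).exists_isTree_le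
    refine treeStab_le Q T hT.connected fun a b c => ?_
    exact (ncard_le_ncard (hsubE T a b c)).trans (by rw [hcard T hT]; exact hk3)
  · have hk4 : k = 3 := by omega
    subst hk4
    have hind : ¬ AffineIndependent ℝ Q := by
      intro hi
      have h1 := hi.card_le_finrank_succ
      have h2 : Module.finrank ℝ (vectorSpan ℝ (Set.range Q)) ≤ Module.finrank ℝ (ℝ × ℝ) :=
        Submodule.finrank_le _
      rw [Module.finrank_prod, Module.finrank_self] at h2
      rw [Fintype.card_fin] at h1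
      omega
    obtain ⟨I, z, hz1, hz2⟩ := Convex.radon_partition hind
    obtain ⟨i0, hi0⟩ : I.Nonempty := by
      by_contra hcon
      rw [not_nonempty_iff_eq_empty] at hcon
      rw [hcon] at hz1
      simp at hz1
    obtain ⟨j0, hj0⟩ : (Iᶜ).Nonempty := by
      by_contra hcon
      rw [not_nonempty_iff_eq_empty] at hcon
      rw [hcon] at hz2
      simp at hz2
    let B : SimpleGraph (Fin 4) :=
      { Adj := fun i j => (i ∈ I ∧ j ∉ I) ∨ (i ∉ I ∧ j ∈ I)
        symm := ⟨fun i j h => h.elim (fun g => Or.inr ⟨g.2, g.1⟩) (fun g => Or.inl ⟨g.2, g.1⟩)⟩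
        loopless := ⟨fun i h => h.elim (fun g => g.2 g.1) (fun g => g.1 g.2)⟩ }
    have hB : B.Connected := by
      have r0 : B.Adj i0 j0 := Or.inl ⟨hi0, hj0⟩
      have hr : ∀ i, B.Reachable i i0 := by
        intro i
        by_cases hi : i ∈ I
        · have : B.Adj i j0 := Or.inl ⟨hi, hj0⟩
          exact this.reachable.trans r0.symm.reachable
        · have : B.Adj i i0 := Or.inr ⟨hi, hi0⟩
          exact this.reachable
      exact ⟨fun i j => (hr i).trans (hr j).symm⟩
    obtain ⟨T, hTB, hT⟩ := hB.exists_isTree_le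
    refine treeStab_le Q T hT.connected fun a b c => ?_
    by_contra hcon
    push Not at hcon
    have heq : hit Q T a b c = T.edgeSet :=
      Set.eq_of_subset_of_ncard_le (hsubE T a b c) (by rw [hcard T hT]; exact hcon)
    have hflip : ∀ i j, T.Adj i j → ev a b c (Q i) * ev a b c (Q j) < 0 := by
      intro i j hij
      have : s(i, j) ∈ hit Q T a b c := by rw [heq]; exact hij
      exact ((pair_hit hQ _ _ _ _ _ _).1 this).2
    -- a sign `s` with the two sides of the partition separated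
    have hconv : ∀ s : ℝ, Convex ℝ {u : ℝ × ℝ | 0 < s * ev a b c u} := by
      intro s u hu v hv x y hx hy hxy
      simp only [mem_ofPred_eq, ev, Prod.fst_add, Prod.snd_add, Prod.smul_fst, Prod.smul_snd,
        smul_eq_mul] at hu hv ⊢
      have e : s * (a * (x * u.1 + y * v.1) + b * (x * u.2 + y * v.2) - c)
          = x * (s * (a * u.1 + b * u.2 - c)) + y * (s * (a * v.1 + b * v.2 - c)) := by
        linear_combination (s * c) * hxy
      rw [e]
      rcases hx.lt_or_eq with hx' | hx'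
      · have := mul_pos hx' hu
        have := mul_nonneg hy hv.le
        linarith
      · have hy1 : y = 1 := by linarith
        rw [← hx', hy1]; linarith
    have hsep : ∀ s : ℝ, (∀ i, (i ∈ I → 0 < s * ev a b c (Q i)) ∧
        (i ∉ I → 0 < (-s) * ev a b c (Q i))) → False := by
      intro s hs
      have w1 : z ∈ {u : ℝ × ℝ | 0 < s * ev a b c u} := by
        refine convexHull_min ?_ (hconv s) hz1
        rintro _ ⟨i, hi, rfl⟩
        exact (hs i).1 hi
      have w2 : z ∈ {u : ℝ × ℝ | 0 < (-s) * ev a b c u} := by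
        refine convexHull_min ?_ (hconv (-s)) hz2
        rintro _ ⟨i, hi, rfl⟩
        exact (hs i).2 hi
      simp only [mem_ofPred_eq] at w1 w2
      linarith
    -- the sign of the point `i0`
    have hn0 : ev a b c (Q i0) ≠ 0 := by
      obtain ⟨w⟩ := hT.connected.preconnected i0 j0
      obtain ⟨d, _, d1, _⟩ := w.exists_boundary_dart {i0} rfl (by
        intro h
        rw [mem_singleton_iff] at h
        exact hj0 (h ▸ hi0))
      rw [mem_singleton_iff] at d1
      intro h0
      have := hflip _ _ d.adj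
      rw [d1, h0, zero_mul] at this
      exact lt_irrefl _ this
    apply hsep (ev a b c (Q i0))
    let good : Fin 4 → Prop := fun i => (i ∈ I → 0 < ev a b c (Q i0) * ev a b c (Q i)) ∧
        (i ∉ I → 0 < (-ev a b c (Q i0)) * ev a b c (Q i))
    have hst : ∀ i j, T.Adj i j → good i → good j := by
      rintro i j hij ⟨g1, g2⟩
      have hb : B.Adj i j := hTB hij
      have hf := hflip i j hij
      have hsq : 0 < ev a b c (Q i0) ^ 2 := by positivity
      refine ⟨fun hj => ?_, fun hj => ?_⟩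
      · have hi : i ∉ I := by
          rcases hb with h | h
          · exact absurd hj h.2
          · exact h.1
        have h1 := g2 hi
        by_contra hneg
        push Not at hneg
        nlinarith [mul_nonneg h1.le (neg_nonneg.2 hneg), mul_pos hsq (neg_pos.2 hf)]
      · have hi : i ∈ I := by
          rcases hb with h | h
          · exact h.1
          · exact absurd h.2 hj
        have h1 := g1 hi
        by_contra hneg
        push Not at hneg
        nlinarith [mul_nonneg h1.le (neg_nonneg.2 hneg), mul_pos hsq (neg_pos.2 hf)]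
    have hall : ∀ i j, T.Reachable i j → good i → good j := by
      rintro i j ⟨p⟩
      induction p with
      | nil => exact id
      | cons h _ ih => exact fun g => ih (hst _ _ h g)
    intro i
    refine hall i0 i (hT.connected.preconnected i0 i) ⟨fun _ => ?_, fun h => absurd hi0 h⟩
    exact mul_self_pos.2 hn0

/-- **The exact sizes at which the tree stabbing number fails to be monotone.**  For `1 ≤ k < n`:
every subconfiguration with `k` points of every configuration with `n` points has at most the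
tree stabbing number of the configuration if and only if `k ≤ 4`; and for `5 ≤ k < n` there are a
configuration `P` with `n` points and a subconfiguration `Q` with `k` points such that
`TREE-STAB(P) = 2` and `TREE-STAB(Q) ≥ 3`. -/
theorem result (k n : ℕ) (hk : 1 ≤ k) (hkn : k < n) :
    ((∀ (P : Fin n → ℝ × ℝ) (Q : Fin k → ℝ × ℝ), Function.Injective P → Function.Injective Q →
      Set.range Q ⊆ Set.range P → treeStab Q ≤ treeStab P) ↔ k ≤ 4) ∧
    (5 ≤ k → ∃ (P : Fin n → ℝ × ℝ) (Q : Fin k → ℝ × ℝ), Function.Injective P ∧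
      Function.Injective Q ∧ Set.range Q ⊆ Set.range P ∧ treeStab P = 2 ∧ 3 ≤ treeStab Q) := by
  have hB : 5 ≤ k → ∃ (P : Fin n → ℝ × ℝ) (Q : Fin k → ℝ × ℝ), Function.Injective P ∧
      Function.Injective Q ∧ Set.range Q ⊆ Set.range P ∧ treeStab P = 2 ∧ 3 ≤ treeStab Q := by
    intro h5
    refine ⟨P n, Q k, P_inj n, Q_inj k, ?_, ?_, low' k h5⟩
    · rintro _ ⟨i, rfl⟩
      exact ⟨⟨i + 1, by omega⟩, rfl⟩
    · refine le_antisymm (up n (by omega)) ?_
      by_contra hcon
      obtain ⟨a, b, c, hab, h⟩ := collinear (n := n) (by omega) (P_inj n) (by omega)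
      have h0 := h ⟨0, by omega⟩
      have h1 := h ⟨1, by omega⟩
      have h2 := h ⟨3, by omega⟩
      simp [P, RP, R, ev] at h0 h1 h2
      rw [h0] at h1 h2
      simp at h1 h2
      tauto
  refine ⟨⟨fun h => ?_, fun h => ?_⟩, hB⟩
  · by_contra hcon
    obtain ⟨P, Q, h1, h2, h3, h4, h5⟩ := hB (by omega)
    have := h P Q h1 h2 h3
    omega
  · intro P Q hP hQ hsub
    obtain ⟨k, rfl⟩ := Nat.exists_eq_add_of_le' hk
    by_cases h2 : 2 ≤ treeStab P
    · exact (four h hQ).trans h2
    · obtain ⟨a, b, c, hab, hl⟩ := collinear (n := n) (by omega) hP (by omega)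
      have hQ1 : treeStab Q ≤ 1 := by
        refine collinear_le hQ a b c hab fun i => ?_
        obtain ⟨j, hj⟩ := hsub ⟨i, rfl⟩
        rw [← hj]; exact hl j
      refine hQ1.trans ?_
      -- an edge is stabbed by some line
      obtain ⟨T, hT, hTs⟩ := exists_tree (by omega) P
      rw [hTs]
      obtain ⟨x, y, hxy⟩ : ∃ x y, T.Adj x y := by
        obtain ⟨w⟩ := hT.connected.preconnected ⟨0, by omega⟩ ⟨1, by omega⟩
        obtain ⟨d, _⟩ := w.exists_boundary_dart {i | (i : ℕ) = 0} rfl (fun h => one_ne_zero h)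
        exact ⟨_, _, d.adj⟩
      have hne : P x ≠ P y := hP.ne hxy.ne
      let a' : ℝ := (P y).1 - (P x).1
      let b' : ℝ := (P y).2 - (P x).2
      let c' : ℝ := (a' * (P x).1 + b' * (P x).2 + (a' * (P y).1 + b' * (P y).2)) / 2
      have hab' : a' ≠ 0 ∨ b' ≠ 0 := by
        by_contra hcon
        push Not at hcon
        apply hne
        refine Prod.ext ?_ ?_
        · have := hcon.1
          simp only [a'] at this
          linarith
        · have := hcon.2
          simp only [b'] at this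
          linarith
      have hpos : 0 < a' ^ 2 + b' ^ 2 := by
        rcases hab' with g | g
        · have h3 := sq_nonneg b'
          have h4 : 0 < a' ^ 2 := by positivity
          linarith
        · have h3 := sq_nonneg a'
          have h4 : 0 < b' ^ 2 := by positivity
          linarith
      refine le_trans ?_ (hit_le_stab P T a' b' c' hab')
      rw [Nat.one_le_iff_ne_zero]
      have hmem : s(x, y) ∈ hit P T a' b' c' := by
        refine (pair_hit hP _ _ _ _ _ _).2 ⟨hxy, ?_⟩
        have e1 : ev a' b' c' (P x) = -(a' ^ 2 + b' ^ 2) / 2 := by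
          simp only [ev, c', a', b']; ring
        have e2 : ev a' b' c' (P y) = (a' ^ 2 + b' ^ 2) / 2 := by
          simp only [ev, c', a', b']; ring
        rw [e1, e2]
        nlinarith
      exact (Set.ncard_pos (toFinite _)).2 ⟨_, hmem⟩ |>.ne'

end Pool.Agent.Results.MP_3f72ec_co.ExactSizes
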